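import Pool.Agent.H369.RE.Stm

/-!
# The expansions at the nodes
-/

set_option autoImplicit false

namespace Pool.Agent.H225.RE

open TensorProduct Pool.Agent.TH549.CK Pool.Agent.H369.TH Pool.Agent.H369.CFG Pool.Agent.H369.SM
open Pool.Agent.H369.PL Pool.Agent.H369.RE

section aux

theorem coeff_shf {k : Type} [CommRing k] (ζ f : PowerSeries k) (b A : ℕ) :
    PowerSeries.coeff A (PowerSeries.coeff b (shf ζ f)) =
      (((A + b).choose b : ℕ) : PowerSeries k) *
        PowerSeries.C (PowerSeries.coeff (A + b) f) * ζ ^ A := by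
  unfold shf
  rw [PowerSeries.coeff_mk, PowerSeries.coeff_mk]

theorem shf_C {k : Type} [CommRing k] (ζ : PowerSeries k) (c : k) :
    shf ζ (PowerSeries.C c) = PowerSeries.C (PowerSeries.C (PowerSeries.C c)) := by
  refine PowerSeries.ext fun b => PowerSeries.ext fun A => ?_
  rw [coeff_shf]
  rw [PowerSeries.coeff_C, PowerSeries.coeff_C]
  by_cases hb : b = 0
  · subst hb
    rw [if_pos rfl, PowerSeries.coeff_C, add_zero]
    by_cases hA : A = 0
    · subst hA
      rw [if_pos rfl, if_pos rfl, Nat.choose_self, Nat.cast_one, one_mul, pow_zero, mul_one]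
    · rw [if_neg hA, if_neg hA, map_zero, mul_zero, zero_mul]
  · rw [if_neg hb, if_neg (by omega), map_zero, map_zero, mul_zero, zero_mul]

/-- the constant coefficient, `A = 0` -/
theorem shf_00 {k : Type} [CommRing k] (ζ f : PowerSeries k) :
    PowerSeries.coeff 0 (PowerSeries.coeff 0 (shf ζ f)) = PowerSeries.C (PowerSeries.coeff 0 f) := by
  rw [coeff_shf, pow_zero, mul_one, add_zero, Nat.choose_self, Nat.cast_one, one_mul]

theorem shf_10 {k : Type} [CommRing k] (ζ f : PowerSeries k) :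
    PowerSeries.coeff 0 (PowerSeries.coeff 1 (shf ζ f)) = PowerSeries.C (PowerSeries.coeff 1 f) := by
  rw [coeff_shf, pow_zero, mul_one, zero_add, Nat.choose_self, Nat.cast_one, one_mul]

theorem shf_01 {k : Type} [CommRing k] (ζ f : PowerSeries k) :
    PowerSeries.coeff 1 (PowerSeries.coeff 0 (shf ζ f)) =
      PowerSeries.C (PowerSeries.coeff 1 f) * ζ := by
  rw [coeff_shf, pow_one, add_zero, Nat.choose_zero_right, Nat.cast_one, one_mul]

end aux

section main
variable {Γ K : Type} [AddCommGroup Γ] [LinearOrder Γ] [IsOrderedAddMonoid Γ] [Field K] [CharZero K]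

/-- a function with a simple zero at `a`, not zero at the points of `s` -/
theorem fun_at (h5 : S_fr) (h6 : S_fun) (P : Γ) (hP : Big P) (o a : Pt Γ K)
    (ha : PowerSeries.coeff 0 (T a (theta P o)) ≠ 0) (s : Finset (Pt Γ K))
    (hs : ∀ b ∈ s, ∀ k : ℤ, b ≠ a * qq P ^ k) : ∃ h : R1 P o,
      (∀ E : R1 P o →+* PowerSeries (HG Γ K),
        (∀ (n : ℕ) (f : Ent Γ K) (h : R1 P o), FR P o n f h →
          E h * T a (theta P o) ^ n = T a f) →
        PowerSeries.coeff 0 (E h) = 0 ∧ PowerSeries.coeff 1 (E h) ≠ 0) ∧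
      ∀ b ∈ s, ∀ E : R1 P o →+* PowerSeries (HG Γ K),
        (∀ (n : ℕ) (f : Ent Γ K) (h : R1 P o), FR P o n f h →
          E h * T b (theta P o) ^ n = T b f) →
        PowerSeries.coeff 0 (E h) ≠ 0 := by
  obtain ⟨f, hf, f0, f1, fs⟩ := h6 Γ K P hP o a s hs
  obtain ⟨-, hfr, -, -⟩ := h5 Γ K P hP o
  obtain ⟨h, hh⟩ := hfr 3 f (by exact_mod_cast hf)
  refine ⟨h, fun E hE => ?_, fun b hb E hE h0 => ?_⟩
  · have h1 := hE 3 f h hh
    have h2 : PowerSeries.coeff 0 (E h) = 0 := by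
      have h3 := congrArg (PowerSeries.coeff 0) h1
      rw [f0, PowerSeries.coeff_zero_eq_constantCoeff_apply, map_mul, map_pow] at h3
      rw [PowerSeries.coeff_zero_eq_constantCoeff_apply] at ha
      rw [PowerSeries.coeff_zero_eq_constantCoeff_apply]
      exact (mul_eq_zero.1 h3).resolve_right (pow_ne_zero _ ha)
    refine ⟨h2, fun h4 => f1 ?_⟩
    rw [← h1, PowerSeries.coeff_mul]
    refine Finset.sum_eq_zero fun ij hij => ?_
    rw [Finset.HasAntidiagonal.mem_antidiagonal] at hij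
    have h5 : ij.1 = 0 ∨ ij.1 = 1 := by omega
    rcases h5 with h5 | h5
    · rw [h5, h2, zero_mul]
    · rw [h5, h4, zero_mul]
  · apply fs b hb
    have h1 := hE 3 f h hh
    rw [← h1, PowerSeries.coeff_zero_eq_constantCoeff_apply, map_mul]
    rw [PowerSeries.coeff_zero_eq_constantCoeff_apply] at h0
    rw [h0, zero_mul]

end main

theorem nodes (h1 : S_rules) (h2 : S_T) (h3 : S_Th) (h4 : S_theta) (h5 : S_fr) (h6 : S_fun)
    (h7 : S_ev) (h8 : S_sh) (h9 : S_extE) : S_nodes := by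
  intro Γ K _ _ _ _ _ τ A m ξ hξ y hy F _ _ _ hBF hkF
  have hfst : ∀ (u v : Γ) (c d : Kˣ) (k : ℤ), ((Multiplicative.ofAdd u, c) : Pt Γ K) =
      (Multiplicative.ofAdd v, d) * qq A.P ^ k → u = v + k • A.P ∧ c = d := by
    intro u v c d k h
    have e1 := congrArg (fun p : Pt Γ K => Multiplicative.toAdd p.1) h
    have e2 := congrArg (fun p : Pt Γ K => p.2) h
    simp only [qq, Prod.fst_mul, Prod.snd_mul, Prod.pow_fst, Prod.pow_snd, toAdd_mul, toAdd_zpow,
      toAdd_ofAdd, one_zpow, mul_one] at e1 e2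
    exact ⟨e1, e2⟩
  have hpo : ∀ i, ∀ k : ℤ, (A.p ξ i : Pt Γ K) ≠ A.o * qq A.P ^ k := by
    intro i k h
    exact A.neto k (hfst _ _ _ _ _ h).1
  have hxo : ∀ k : ℤ, (A.x : Pt Γ K) ≠ A.o * qq A.P ^ k := by
    intro k h
    exact A.ne0o k (hfst _ _ _ _ _ h).1
  have hpp : ∀ i j, i ≠ j → ∀ k : ℤ, (A.p ξ j : Pt Γ K) ≠ A.p ξ i * qq A.P ^ k := by
    intro i j hij k h
    exact hij (hξ (hfst _ _ _ _ _ h).2).symm
  have hpx : ∀ i, ∀ k : ℤ, (A.x : Pt Γ K) ≠ A.p ξ i * qq A.P ^ k := by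
    intro i k h
    have e := (hfst _ _ _ _ _ h).1
    apply A.ne0t (-k)
    rw [e, neg_smul, add_neg_cancel_right]
  obtain ⟨-, -, -, -, hθ⟩ := h4 Γ K A.P A.big (A.o : Pt Γ K)
  choose ep hepc hep using fun i => h7 Γ K A.P A.big A.o (A.p ξ i) (hpo i)
  obtain ⟨ex, hexc, hex⟩ := h7 Γ K A.P A.big A.o A.x hxo
  choose e1 he1c he1 using fun i => h9 (HG Γ K) (R1 A.P (A.o : Pt Γ K)) F
    ((PowerSeries.map (algebraMap (HG Γ K) F)).comp (ep i)) (fun c => by
      rw [RingHom.comp_apply, hepc, PowerSeries.map_C])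
  choose sh hsh using fun i => h8 (HG Γ K) (A.ze ξ y i)
  choose e2 he2c he2 using fun i => h9 (HG Γ K) (R1 A.P (A.o : Pt Γ K)) F
    ((PowerSeries.map (algebraMap (BB (HG Γ K)) F)).comp ((sh i).comp ex)) (fun c => by
      rw [RingHom.comp_apply, RingHom.comp_apply, hexc, hsh, shf_C, PowerSeries.map_C, hkF])
  have hu1 : ∀ i h, e1 i (up _ F h) = PowerSeries.map (algebraMap (HG Γ K) F) (ep i h) := he1
  have hu2 : ∀ i h, e2 i (up _ F h) =
      PowerSeries.map (algebraMap (BB (HG Γ K)) F) (shf (A.ze ξ y i) (ex h)) := by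
    intro i h
    rw [he2, RingHom.comp_apply, RingHom.comp_apply, hsh]
  have hkinj : Function.Injective (algebraMap (HG Γ K) F) := (algebraMap (HG Γ K) F).injective
  -- uniformizers
  obtain ⟨hx, hx1, -⟩ := fun_at h5 h6 A.P A.big A.o (A.x : Pt Γ K) (hθ _ hxo) ∅ (by simp)
  obtain ⟨hx0, hx1⟩ := hx1 ex hex
  -- nonzero elements of `B`
  have hne : ∀ {b : BB (HG Γ K)}, b ≠ 0 → algebraMap (BB (HG Γ K)) F b ≠ 0 := by
    intro b hb h
    exact hb (hBF (by rw [h, map_zero]))
  have hC : ∀ {c : HG Γ K}, c ≠ 0 → (PowerSeries.C c : PowerSeries (HG Γ K)) ≠ 0 := by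
    intro c hc h
    apply hc
    have := congrArg (PowerSeries.coeff 0) h
    rwa [PowerSeries.coeff_zero_C, map_zero] at this
  have hU1 : ∀ i, Unif (e1 i) := by
    intro i
    obtain ⟨h, hh, -⟩ := fun_at h5 h6 A.P A.big A.o (A.p ξ i : Pt Γ K) (hθ _ (hpo i)) ∅ (by simp)
    obtain ⟨hh0, hh1⟩ := hh (ep i) (hep i)
    refine ⟨he1c i, up _ F h, ?_, ?_⟩
    · rw [hu1, PowerSeries.coeff_map, hh0, map_zero]
    · rw [hu1, PowerSeries.coeff_map]
      exact fun h0 => hh1 (hkinj (by rw [h0, map_zero]))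
  have hU2' : ∀ i, PowerSeries.coeff 0 (e2 i (up _ F hx - algebraMap F (ext (R1 A.P (A.o : Pt Γ K)) F)
      (algebraMap (BB (HG Γ K)) F (PowerSeries.coeff 0 (shf (A.ze ξ y i) (ex hx)))))) = 0 := by
    intro i
    rw [map_sub, hu2, he2c, map_sub, PowerSeries.coeff_map, PowerSeries.coeff_zero_C, sub_self]
  have hU2 : ∀ i, Unif (e2 i) := by
    intro i
    refine ⟨he2c i, _, hU2' i, ?_⟩
    rw [map_sub, hu2, he2c, map_sub, PowerSeries.coeff_map, PowerSeries.coeff_C, if_neg one_ne_zero,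
      sub_zero]
    apply hne
    intro h0
    have h10 := shf_10 (A.ze ξ y i) (ex hx)
    rw [h0, map_zero] at h10
    exact hC hx1 h10.symm
  have hU : ∀ x, Unif (Sum.elim e1 e2 x) := by
    rintro (i | i)
    · exact hU1 i
    · exact hU2 i
  refine ⟨ep, ex, Sum.elim e1 e2, hep, hex, hU, fun x h0 => ?_, ?_, hu1, hu2⟩
  · obtain ⟨π, hπ0, hπ1⟩ := (hU x).unif
    have hmem : π ∈ ctr (Sum.elim e1 e2 x) := by
      rw [ctr, RingHom.mem_ker, RingHom.comp_apply,
        ← PowerSeries.coeff_zero_eq_constantCoeff_apply]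
      exact hπ0
    rw [h0, Ideal.mem_bot] at hmem
    rw [hmem, map_zero, map_zero] at hπ1
    exact hπ1 rfl
  · -- the centres are different
    have hm1 : ∀ i z, z ∈ ctr (e1 i) ↔ PowerSeries.coeff 0 (e1 i z) = 0 := by
      intro i z
      rw [ctr, RingHom.mem_ker, RingHom.comp_apply,
        ← PowerSeries.coeff_zero_eq_constantCoeff_apply]
    have hm2 : ∀ i z, z ∈ ctr (e2 i) ↔ PowerSeries.coeff 0 (e2 i z) = 0 := by
      intro i z
      rw [ctr, RingHom.mem_ker, RingHom.comp_apply,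
        ← PowerSeries.coeff_zero_eq_constantCoeff_apply]
    have c12 : ∀ i j, ctr (e1 i) ≠ ctr (e2 j) := by
      intro i j hij
      obtain ⟨h, hh, hh'⟩ := fun_at h5 h6 A.P A.big A.o (A.p ξ i : Pt Γ K) (hθ _ (hpo i))
        {(A.x : Pt Γ K)} (by
          intro b hb
          rw [Finset.mem_singleton] at hb
          rw [hb]
          exact hpx i)
      obtain ⟨hh0, -⟩ := hh (ep i) (hep i)
      have hh1 := hh' A.x (Finset.mem_singleton_self _) ex hex
      have hmem : up _ F h ∈ ctr (e1 i) := by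
        rw [hm1, hu1, PowerSeries.coeff_map, hh0, map_zero]
      rw [hij, hm2, hu2, PowerSeries.coeff_map] at hmem
      refine hne (fun h0 => ?_) hmem
      have h00 := shf_00 (A.ze ξ y j) (ex h)
      rw [h0, map_zero] at h00
      exact hC hh1 h00.symm
    have c11 : ∀ i j, ctr (e1 i) = ctr (e1 j) → i = j := by
      intro i j hij
      by_contra hne'
      obtain ⟨h, hh, hh'⟩ := fun_at h5 h6 A.P A.big A.o (A.p ξ i : Pt Γ K) (hθ _ (hpo i))
        {(A.p ξ j : Pt Γ K)} (by
          intro b hb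
          rw [Finset.mem_singleton] at hb
          rw [hb]
          exact hpp i j hne')
      obtain ⟨hh0, -⟩ := hh (ep i) (hep i)
      have hh1 := hh' (A.p ξ j) (Finset.mem_singleton_self _) (ep j) (hep j)
      have hmem : up _ F h ∈ ctr (e1 i) := by
        rw [hm1, hu1, PowerSeries.coeff_map, hh0, map_zero]
      rw [hij, hm1, hu1, PowerSeries.coeff_map] at hmem
      exact hh1 (hkinj (by rw [hmem, map_zero]))
    have c22 : ∀ i j, ctr (e2 i) = ctr (e2 j) → i = j := by
      intro i j hij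
      have hmem := (hm2 i _).2 (hU2' i)
      rw [hij, hm2, map_sub, hu2, he2c, map_sub, PowerSeries.coeff_map, PowerSeries.coeff_zero_C,
        sub_eq_zero] at hmem
      have e0 := congrArg (PowerSeries.coeff 1) (hBF hmem)
      rw [shf_01, shf_01] at e0
      have e3 := mul_left_cancel₀ (hC hx1) e0
      unfold Gam.ze at e3
      have e4 := congrArg (PowerSeries.coeff 1) e3
      rw [map_add, map_add, PowerSeries.coeff_C, PowerSeries.coeff_C, if_neg one_ne_zero,
        if_neg one_ne_zero, zero_add, zero_add, ← zero_add 1, PowerSeries.coeff_succ_X_mul,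
        PowerSeries.coeff_succ_X_mul, PowerSeries.coeff_zero_C, PowerSeries.coeff_zero_C] at e4
      exact hy (HahnSeries.C_injective e4.symm)
    rintro (i | i) (j | j) hij
    · rw [c11 i j hij]
    · exact absurd hij (c12 i j)
    · exact absurd hij.symm (c12 j i)
    · rw [c22 i j hij]

end Pool.Agent.H225.RE
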